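import Pool.Agent.Helper18.RAC.KiteN

/-!
# RAC1, C1: links between the cells of a net

`HP`, `DP`: an edge of the net which covers a unit piece of a line, a diagonal edge.  `N` contains the
ends of these edges.  An edge `p p'` of `H` with ends outside `N` which starts in the cell `(i, j)`
either stays in this cell or is parallel to an axis and ends in a cell of the cross around `(i, j)`,
before the first obstacle.
-/

set_option autoImplicit false

namespace Pool.Agent.Helper72.DG3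

open Pool.Agent.Helper18.RAC

variable {V : Type*}

/-- an edge at height `y` which covers `[x₀, x₁]`, with ends in `N` -/
def HP (H : SimpleGraph V) (X Y : V → ℝ) (N : Set V) (y x₀ x₁ : ℝ) : Prop :=
  ∃ u v, H.Adj u v ∧ u ∈ N ∧ v ∈ N ∧ Y u = y ∧ Y v = y ∧ X u ≤ x₀ ∧ x₁ ≤ X v

/-- the edge from `(x₀, y₀)` to `(x₁, y₁)`, with ends in `N` -/
def DP (H : SimpleGraph V) (X Y : V → ℝ) (N : Set V) (x₀ y₀ x₁ y₁ : ℝ) : Prop :=
  ∃ u v, H.Adj u v ∧ u ∈ N ∧ v ∈ N ∧ X u = x₀ ∧ Y u = y₀ ∧ X v = x₁ ∧ Y v = y₁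

/-- `v` is in the open cell `(i, j)` -/
def InC (X Y : V → ℝ) (gx gy : ℤ → ℝ) (i j : ℤ) (v : V) : Prop :=
  gx i < X v ∧ X v < gx (i + 1) ∧ gy j < Y v ∧ Y v < gy (j + 1)

/-- `v` is above the diagonal of the cell `(i, j)` -/
def Up (X Y : V → ℝ) (gx gy : ℤ → ℝ) (i j : ℤ) (v : V) : Prop :=
  (X v - gx i) * (gy (j + 1) - gy j) < (Y v - gy j) * (gx (i + 1) - gx i)

theorem DP.swap {H : SimpleGraph V} {X Y : V → ℝ} {N : Set V} {x₀ y₀ x₁ y₁ : ℝ}
    (h : DP H X Y N x₀ y₀ x₁ y₁) : DP H Y X N y₀ x₀ y₁ x₁ := by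
  obtain ⟨u, v, h1, h2, h3, h4, h5, h6, h7⟩ := h
  exact ⟨u, v, h1, h2, h3, h5, h4, h7, h6⟩

theorem InC.swap {X Y : V → ℝ} {gx gy : ℤ → ℝ} {i j : ℤ} {v : V} (h : InC X Y gx gy i j v) :
    InC Y X gy gx j i v := ⟨h.2.2.1, h.2.2.2, h.1, h.2.1⟩

variable {H : SimpleGraph V} {X Y : V → ℝ} {E F : ℝ} {N : Set V} {p p' : V}

/-- an edge which meets another edge -/
theorem meet (hd : ADraw H X Y E F) {u v : V} (huv : H.Adj u v) (hu : u ∈ N) (hv : v ∈ N)
    (hp : H.Adj p p') (n : p ∉ N) (n' : p' ∉ N) {s t : ℝ} (hs0 : 0 ≤ s) (hs1 : s ≤ 1)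
    (ht0 : 0 ≤ t) (ht1 : t ≤ 1) (hx : (1 - s) * X p + s * X p' = (1 - t) * X u + t * X v)
    (hy : (1 - s) * Y p + s * Y p' = (1 - t) * Y u + t * Y v) :
    0 < s ∧ s < 1 ∧ E * ((X p' - X p) * (X v - X u)) + F * ((Y p' - Y p) * (Y v - Y u)) = 0 := by
  have a1 : p ≠ u := fun e => n (e ▸ hu)
  have a2 : p ≠ v := fun e => n (e ▸ hv)
  have a3 : p' ≠ u := fun e => n' (e ▸ hu)
  have a4 : p' ≠ v := fun e => n' (e ▸ hv)
  have s0 : 0 < s := by
    refine lt_of_le_of_ne hs0 ?_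
    rintro rfl
    exact hd.vtx u v p huv a1 a2 t ht0 ht1 (by linarith) (by linarith)
  have s1 : s < 1 := by
    refine lt_of_le_of_ne hs1 ?_
    rintro rfl
    exact hd.vtx u v p' huv a3 a4 t ht0 ht1 (by linarith) (by linarith)
  have t0 : 0 < t := by
    refine lt_of_le_of_ne ht0 ?_
    rintro rfl
    exact hd.vtx p p' u hp a1.symm a3.symm s s0.le s1.le (by linarith) (by linarith)
  have t1 : t < 1 := by
    refine lt_of_le_of_ne ht1 ?_
    rintro rfl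
    exact hd.vtx p p' v hp a2.symm a4.symm s s0.le s1.le (by linarith) (by linarith)
  exact ⟨s0, s1, hd.crs p p' u v hp huv (ne_of_left a1 a2) s t s0 s1 t0 t1 hx hy⟩

/-- an edge which meets a piece of a vertical line is horizontal and does not end there -/
theorem meetV (hd : ADraw H X Y E F) {x y₀ y₁ : ℝ} (hv : HP H Y X N x y₀ y₁) (h01 : y₀ < y₁)
    (hp : H.Adj p p') (n : p ∉ N) (n' : p' ∉ N) {s : ℝ} (hs0 : 0 ≤ s) (hs1 : s ≤ 1)
    (hx : (1 - s) * X p + s * X p' = x) (hy0 : y₀ ≤ (1 - s) * Y p + s * Y p')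
    (hy1 : (1 - s) * Y p + s * Y p' ≤ y₁) : Y p' = Y p ∧ 0 < s ∧ s < 1 := by
  obtain ⟨u, v, h1, h2, h3, h4, h5, h6, h7⟩ := hv
  have hw : 0 < Y v - Y u := by linarith
  obtain ⟨m1, m2, m3⟩ := meet hd h1 h2 h3 hp n n' hs0 hs1
    (t := ((1 - s) * Y p + s * Y p' - Y u) / (Y v - Y u)) (div_nonneg (by linarith) hw.le)
    ((div_le_one hw).2 (by linarith)) (by rw [h4, h5, hx]; ring) (by field_simp; ring)
  refine ⟨?_, m1, m2⟩
  rw [h4, h5] at m3
  have h8 : F * (Y v - Y u) * (Y p' - Y p) = 0 := by linarith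
  have h9 := (mul_eq_zero.1 h8).resolve_left (mul_ne_zero hd.F_pos.ne' hw.ne')
  linarith

/-- a vertex outside `N` is not on a piece of a vertical line -/
theorem not_on (hd : ADraw H X Y E F) {x y₀ y₁ : ℝ} (hv : HP H Y X N x y₀ y₁) (h01 : y₀ < y₁)
    (n : p ∉ N) (hx : X p = x) (hy0 : y₀ ≤ Y p) (hy1 : Y p ≤ y₁) : False := by
  obtain ⟨u, v, h1, h2, h3, h4, h5, h6, h7⟩ := hv
  have hw : 0 < Y v - Y u := by linarith
  refine hd.vtx u v p h1 (fun e => n (e ▸ h2)) (fun e => n (e ▸ h3))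
    ((Y p - Y u) / (Y v - Y u)) (div_nonneg (by linarith) hw.le)
    ((div_le_one hw).2 (by linarith)) (by rw [h4, h5, hx]; ring) (by field_simp; ring)

/-- the first parameter at which one of four affine functions vanishes -/
theorem four_zero {a₁ a₂ a₃ a₄ b₁ b₂ b₃ b₄ : ℝ} (h1 : 0 < a₁) (h2 : 0 < a₂) (h3 : 0 < a₃)
    (h4 : 0 < a₄) (h : b₁ ≤ 0 ∨ b₂ ≤ 0 ∨ b₃ ≤ 0 ∨ b₄ ≤ 0) : ∃ s : ℝ, 0 ≤ s ∧ s ≤ 1 ∧
      0 ≤ (1 - s) * a₁ + s * b₁ ∧ 0 ≤ (1 - s) * a₂ + s * b₂ ∧ 0 ≤ (1 - s) * a₃ + s * b₃ ∧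
      0 ≤ (1 - s) * a₄ + s * b₄ ∧
      ((1 - s) * a₁ + s * b₁ = 0 ∨ (1 - s) * a₂ + s * b₂ = 0 ∨ (1 - s) * a₃ + s * b₃ = 0 ∨
        (1 - s) * a₄ + s * b₄ = 0) := by
  set g : ℝ → ℝ := fun s => min (min ((1 - s) * a₁ + s * b₁) ((1 - s) * a₂ + s * b₂))
    (min ((1 - s) * a₃ + s * b₃) ((1 - s) * a₄ + s * b₄)) with hg
  have hc : Continuous g := by
    rw [hg]
    fun_prop
  have h0 : 0 < g 0 := by
    simp only [hg, sub_zero, one_mul, zero_mul, add_zero, lt_min_iff]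
    exact ⟨⟨h1, h2⟩, h3, h4⟩
  have h5 : g 1 ≤ 0 := by
    simp only [hg, sub_self, one_mul, zero_mul, zero_add, min_le_iff]
    tauto
  obtain ⟨s, ⟨hs0, hs1⟩, hs⟩ := intermediate_value_Icc' (zero_le_one (α := ℝ)) hc.continuousOn
    (show (0 : ℝ) ∈ Set.Icc (g 1) (g 0) from ⟨h5, h0.le⟩)
  have h6 : 0 ≤ g s := hs.ge
  rw [hg] at hs h6
  simp only [le_min_iff] at h6
  refine ⟨s, hs0, hs1, h6.1.1, h6.1.2, h6.2.1, h6.2.2, ?_⟩
  simp only at hs
  rcases min_choice (min ((1 - s) * a₁ + s * b₁) ((1 - s) * a₂ + s * b₂))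
    (min ((1 - s) * a₃ + s * b₃) ((1 - s) * a₄ + s * b₄)) with e | e
  · rw [e] at hs
    rcases min_choice ((1 - s) * a₁ + s * b₁) ((1 - s) * a₂ + s * b₂) with e' | e'
    · rw [e'] at hs
      exact Or.inl hs
    · rw [e'] at hs
      exact Or.inr (Or.inl hs)
  · rw [e] at hs
    rcases min_choice ((1 - s) * a₃ + s * b₃) ((1 - s) * a₄ + s * b₄) with e' | e'
    · rw [e'] at hs
      exact Or.inr (Or.inr (Or.inl hs))
    · rw [e'] at hs
      exact Or.inr (Or.inr (Or.inr hs))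

/-- an edge which starts in a rectangle whose sides are covered by edges leaves it parallel to one
of the axes -/
theorem exit_rect (hd : ADraw H X Y E F) {x₀ x₁ y₀ y₁ : ℝ} (hl : HP H Y X N x₀ y₀ y₁)
    (hr : HP H Y X N x₁ y₀ y₁) (hb : HP H X Y N y₀ x₀ x₁) (ht : HP H X Y N y₁ x₀ x₁)
    (hp : H.Adj p p') (n : p ∉ N) (n' : p' ∉ N) (c1 : x₀ < X p) (c2 : X p < x₁) (c3 : y₀ < Y p)
    (c4 : Y p < y₁) :
    (x₀ < X p' ∧ X p' < x₁ ∧ y₀ < Y p' ∧ Y p' < y₁) ∨
      (Y p' = Y p ∧ (X p' < x₀ ∨ x₁ < X p')) ∨ (X p' = X p ∧ (Y p' < y₀ ∨ y₁ < Y p')) := by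
  have hx01 : x₀ < x₁ := by linarith
  have hy01 : y₀ < y₁ := by linarith
  by_cases h0 : x₀ < X p' ∧ X p' < x₁ ∧ y₀ < Y p' ∧ Y p' < y₁
  · exact Or.inl h0
  right
  have h1 : X p' - x₀ ≤ 0 ∨ x₁ - X p' ≤ 0 ∨ Y p' - y₀ ≤ 0 ∨ y₁ - Y p' ≤ 0 := by
    by_contra hcon
    push Not at hcon
    exact h0 ⟨by linarith [hcon.1], by linarith [hcon.2.1], by linarith [hcon.2.2.1],
      by linarith [hcon.2.2.2]⟩
  obtain ⟨s, hs0, hs1, g1, g2, g3, g4, hz⟩ := four_zero (sub_pos.2 c1) (sub_pos.2 c2)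
    (sub_pos.2 c3) (sub_pos.2 c4) h1
  have e1 : (1 - s) * (X p - x₀) + s * (X p' - x₀) = (1 - s) * X p + s * X p' - x₀ := by ring
  have e2 : (1 - s) * (x₁ - X p) + s * (x₁ - X p') = x₁ - ((1 - s) * X p + s * X p') := by ring
  have e3 : (1 - s) * (Y p - y₀) + s * (Y p' - y₀) = (1 - s) * Y p + s * Y p' - y₀ := by ring
  have e4 : (1 - s) * (y₁ - Y p) + s * (y₁ - Y p') = y₁ - ((1 - s) * Y p + s * Y p') := by ring
  rw [e1] at g1
  rw [e2] at g2
  rw [e3] at g3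
  rw [e4] at g4
  rw [e1, e2, e3, e4] at hz
  -- the edge is horizontal or vertical
  have hh : Y p' = Y p ∨ X p' = X p := by
    rcases hz with hz | hz | hz | hz
    · exact Or.inl (meetV hd hl hy01 hp n n' hs0 hs1 (by linarith) (by linarith) (by linarith)).1
    · exact Or.inl (meetV hd hr hy01 hp n n' hs0 hs1 (by linarith) (by linarith) (by linarith)).1
    · exact Or.inr (meetV hd.swap hb hx01 hp n n' hs0 hs1 (by linarith) (by linarith)
        (by linarith)).1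
    · exact Or.inr (meetV hd.swap ht hx01 hp n n' hs0 hs1 (by linarith) (by linarith)
        (by linarith)).1
  rcases hh with hh | hh
  · left
    refine ⟨hh, ?_⟩
    by_contra hcon
    push Not at hcon
    have k1 : x₀ ≠ X p' := fun e =>
      not_on hd hl hy01 n' e.symm (by rw [hh]; exact c3.le) (by rw [hh]; exact c4.le)
    have k2 : X p' ≠ x₁ := fun e =>
      not_on hd hr hy01 n' e (by rw [hh]; exact c3.le) (by rw [hh]; exact c4.le)
    exact h0 ⟨lt_of_le_of_ne hcon.1 k1, lt_of_le_of_ne hcon.2 k2, by rw [hh]; exact c3,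
      by rw [hh]; exact c4⟩
  · right
    refine ⟨hh, ?_⟩
    by_contra hcon
    push Not at hcon
    have k1 : y₀ ≠ Y p' := fun e =>
      not_on hd.swap hb hx01 n' e.symm (by rw [hh]; exact c1.le) (by rw [hh]; exact c2.le)
    have k2 : Y p' ≠ y₁ := fun e =>
      not_on hd.swap ht hx01 n' e (by rw [hh]; exact c1.le) (by rw [hh]; exact c2.le)
    exact h0 ⟨by rw [hh]; exact c1, by rw [hh]; exact c2, lt_of_le_of_ne hcon.1 k1,
      lt_of_le_of_ne hcon.2 k2⟩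

/-- a horizontal edge in the row `j` does not meet the diagonal edge of the cell `(a, j)` -/
theorem side_h (hd : ADraw H X Y E F) {x₀ x₁ y₀ y₁ : ℝ} (hdp : DP H X Y N x₀ y₀ x₁ y₁)
    (hx : x₀ < x₁) (hp : H.Adj p p') (n : p ∉ N) (n' : p' ∉ N)
    (hh : Y p' = Y p) (c3 : y₀ < Y p) (c4 : Y p < y₁) :
    ¬ ((X p - x₀) * (y₁ - y₀) ≤ (Y p - y₀) * (x₁ - x₀) ∧
      (Y p - y₀) * (x₁ - x₀) ≤ (X p' - x₀) * (y₁ - y₀)) := by
  rintro ⟨k1, k2⟩
  obtain ⟨u, v, h1, h2, h3, h4, h5, h6, h7⟩ := hdp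
  have hy' : 0 < y₁ - y₀ := by linarith
  have hx' : 0 < x₁ - x₀ := by linarith
  obtain ⟨t, ht⟩ : ∃ t, t = (Y p - y₀) / (y₁ - y₀) := ⟨_, rfl⟩
  have ht' : t * (y₁ - y₀) = Y p - y₀ := by rw [ht]; field_simp
  have ht0 : 0 ≤ t := by rw [ht]; exact div_nonneg (by linarith) hy'.le
  have ht1 : t ≤ 1 := by rw [ht]; exact (div_le_one hy').2 (by linarith)
  -- the abscissa of the diagonal
  have k3 : X p ≤ x₀ + t * (x₁ - x₀) := by
    have : (X p - x₀) * (y₁ - y₀) ≤ (t * (x₁ - x₀)) * (y₁ - y₀) := by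
      calc (X p - x₀) * (y₁ - y₀) ≤ (Y p - y₀) * (x₁ - x₀) := k1
        _ = (t * (x₁ - x₀)) * (y₁ - y₀) := by rw [← ht']; ring
    have := le_of_mul_le_mul_right this hy'
    linarith
  have k4 : x₀ + t * (x₁ - x₀) ≤ X p' := by
    have : (t * (x₁ - x₀)) * (y₁ - y₀) ≤ (X p' - x₀) * (y₁ - y₀) := by
      calc (t * (x₁ - x₀)) * (y₁ - y₀) = (Y p - y₀) * (x₁ - x₀) := by rw [← ht']; ring
        _ ≤ (X p' - x₀) * (y₁ - y₀) := k2
    have := le_of_mul_le_mul_right this hy'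
    linarith
  have a1 : p ≠ u := fun e => n (e ▸ h2)
  have a2 : p ≠ v := fun e => n (e ▸ h3)
  have k5 : X p ≠ X p' := by
    intro e
    refine hd.vtx u v p h1 a1 a2 t ht0 ht1 ?_ ?_
    · rw [h4, h6]
      linarith
    · rw [h5, h7]
      linarith
  have k6 : 0 < X p' - X p := by
    have : X p ≤ X p' := by linarith
    have := lt_of_le_of_ne this k5
    linarith
  obtain ⟨-, -, m⟩ := meet hd h1 h2 h3 hp n n'
    (s := (x₀ + t * (x₁ - x₀) - X p) / (X p' - X p)) (t := t) (div_nonneg (by linarith) k6.le)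
    ((div_le_one k6).2 (by linarith)) ht0 ht1 (by rw [h4, h6]; field_simp; ring)
    (by rw [h5, h7, hh]; linarith)
  rw [hh, h4, h6, sub_self, zero_mul, mul_zero, add_zero] at m
  exact absurd m (mul_pos hd.E_pos (mul_pos k6 hx')).ne'

/-- an integer cell -/
theorem exists_cell {g : ℤ → ℝ} {x : ℝ} (n : ℕ) : ∀ i : ℤ, g i < x → x < g (i + n) →
    (∀ a : ℤ, i < a → a < i + n → g a ≠ x) →
    ∃ a : ℤ, i ≤ a ∧ a < i + n ∧ g a < x ∧ x < g (a + 1) := by
  induction n with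
  | zero =>
    intro i h1 h2 _
    simp only [Nat.cast_zero, add_zero] at h2
    exact absurd h1 (not_lt.2 h2.le)
  | succ n ih =>
    intro i h1 h2 h3
    rcases lt_or_ge x (g (i + 1)) with h4 | h4
    · exact ⟨i, le_rfl, by push_cast; omega, h1, h4⟩
    · rcases eq_or_lt_of_le h4 with h5 | h5
      · rcases Nat.eq_zero_or_pos n with rfl | hn
        · have h6 : ((0 + 1 : ℕ) : ℤ) = 1 := rfl
          rw [h6] at h2
          exact absurd h4 (not_le.2 h2)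
        · exact absurd h5 (h3 (i + 1) (by omega) (by push_cast; omega))
      · obtain ⟨a, b1, b2, b3, b4⟩ := ih (i + 1) h5
          (by rw [show i + 1 + (n : ℤ) = i + ((n + 1 : ℕ) : ℤ) by push_cast; ring]; exact h2)
          (fun a c1 c2 => h3 a (by omega) (by push_cast; omega))
        exact ⟨a, by omega, by push_cast; omega, b3, b4⟩

/-- the strict monotonicity of the lines in a range -/
theorem mono_of {g : ℤ → ℝ} {a b : ℤ} (h : ∀ k, a ≤ k → k < b → g k < g (k + 1)) {k l : ℤ}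
    (h1 : a ≤ k) (h2 : k ≤ l) (h3 : l ≤ b) : g k ≤ g l := by
  obtain ⟨n, rfl⟩ : ∃ n : ℕ, l = k + n := ⟨(l - k).toNat, by omega⟩
  clear h2
  induction n with
  | zero => simp
  | succ n ih =>
    have h4 := ih (by push_cast at h3; omega)
    have h5 := h (k + n) (by omega) (by push_cast at h3; omega)
    rw [show k + ((n + 1 : ℕ) : ℤ) = k + n + 1 by push_cast; ring]
    linarith

/-- the row of cells around `(i, j)` -/
structure Row (H : SimpleGraph V) (X Y : V → ℝ) (N : Set V) (gx gy : ℤ → ℝ)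
    (L : ℤ → ℤ → Prop) (R i j : ℤ) : Prop where
  gxm : ∀ a, i - R ≤ a → a ≤ i + R → gx a < gx (a + 1)
  gym : gy j < gy (j + 1)
  vp : ∀ a, i - R ≤ a → a ≤ i + R + 1 → HP H Y X N (gx a) (gy j) (gy (j + 1))
  dp : ∀ a, i - R ≤ a → a ≤ i + R → L a j →
    DP H X Y N (gx a) (gy j) (gx (a + 1)) (gy (j + 1))

/-- a product estimate -/
theorem mul_le_aux {s t x y : ℝ} (h1 : s ≤ t) (h2 : x ≤ y) (h3 : 0 ≤ x) (h4 : 0 ≤ t) :
    s * x ≤ y * t := by
  calc s * x ≤ t * x := mul_le_mul_of_nonneg_right h1 h3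
    _ ≤ t * y := mul_le_mul_of_nonneg_left h2 h4
    _ = y * t := mul_comm _ _

/-- a horizontal link to the right -/
theorem Row.right (hd : ADraw H X Y E F) {gx gy : ℤ → ℝ} {L : ℤ → ℤ → Prop} {R i j : ℤ}
    (hr : Row H X Y N gx gy L R i j) (hL : ∃ a, i < a ∧ a ≤ i + R ∧ L a j) (hp : H.Adj p p')
    (n : p ∉ N) (n' : p' ∉ N) (hc : InC X Y gx gy i j p) (hh : Y p' = Y p)
    (hx : gx (i + 1) < X p') :
    ∃ i', i < i' ∧ i' ≤ i + R ∧ InC X Y gx gy i' j p' ∧ (∀ a, i < a → a < i' → ¬ L a j) ∧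
      (L i j → ¬ Up X Y gx gy i j p) ∧ (L i' j → Up X Y gx gy i' j p') := by
  obtain ⟨c1, c2, c3, c4⟩ := hc
  have mono : ∀ {k l : ℤ}, i - R ≤ k → k ≤ l → l ≤ i + R + 1 → gx k ≤ gx l := fun h1 h2 h3 =>
    mono_of (g := gx) (a := i - R) (b := i + R + 1) (fun k h4 h5 => hr.gxm k h4 (by omega)) h1 h2 h3
  have hdy : 0 < gy (j + 1) - gy j := by linarith [hr.gym]
  -- no obstacle between
  have nd : ∀ a, i < a → a ≤ i + R → L a j → gx (a + 1) ≤ X p' → False := by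
    intro a h1 h2 h3 h4
    have h5 := hr.gxm a (by omega) h2
    have h6 := mono (k := i + 1) (l := a) (by omega) (by omega) (by omega)
    refine side_h hd (hr.dp a (by omega) h2 h3) h5 hp n n' hh c3 c4 ⟨?_, ?_⟩
    · have h7 : (X p - gx a) * (gy (j + 1) - gy j) ≤ 0 :=
        mul_nonpos_of_nonpos_of_nonneg (by linarith) hdy.le
      have h8 : 0 ≤ (Y p - gy j) * (gx (a + 1) - gx a) :=
        mul_nonneg (by linarith) (by linarith)
      linarith
    · exact mul_le_aux (by linarith) (by linarith) (by linarith) (by linarith)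
  obtain ⟨a, ha1, ha2, ha3⟩ := hL
  have hlt : X p' < gx (a + 1) := by
    by_contra hcon
    exact nd a ha1 ha2 ha3 (not_lt.1 hcon)
  obtain ⟨i', b1, b2, b3, b4⟩ := exists_cell (g := gx) (x := X p') (a - i).toNat (i + 1) hx
    (by rw [show i + 1 + ((a - i).toNat : ℤ) = a + 1 by omega]; exact hlt)
    (fun b d1 d2 e => not_on hd (hr.vp b (by omega) (by omega)) hr.gym n' e.symm
      (by rw [hh]; exact c3.le) (by rw [hh]; exact c4.le))
  have hR : i' ≤ i + R := by omega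
  have hi' := hr.gxm i' (by omega) hR
  have hii := mono (k := i + 1) (l := i') (by omega) (by omega) (by omega)
  have hi := hr.gxm i (by omega) (by omega)
  refine ⟨i', by omega, hR, ⟨b3, b4, by rw [hh]; exact c3, by rw [hh]; exact c4⟩, ?_, ?_, ?_⟩
  · intro b d1 d2 d3
    have := mono (k := b + 1) (l := i') (by omega) (by omega) (by omega)
    exact nd b d1 (by omega) d3 (by linarith)
  · intro h3 h4
    refine side_h hd (hr.dp i (by omega) (by omega) h3) hi hp n n' hh c3 c4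
      ⟨h4.le, mul_le_aux (by linarith) (by linarith) (by linarith) (by linarith)⟩
  · intro h3
    by_contra h4
    unfold Up at h4
    rw [hh] at h4
    refine side_h hd (hr.dp i' (by omega) hR h3) hi' hp n n' hh c3 c4 ⟨?_, not_lt.1 h4⟩
    have h7 : (X p - gx i') * (gy (j + 1) - gy j) ≤ 0 :=
      mul_nonpos_of_nonpos_of_nonneg (by linarith) hdy.le
    have h8 : 0 ≤ (Y p - gy j) * (gx (i' + 1) - gx i') :=
      mul_nonneg (by linarith) (by linarith)
    linarith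

/-- a horizontal link to the left -/
theorem Row.left (hd : ADraw H X Y E F) {gx gy : ℤ → ℝ} {L : ℤ → ℤ → Prop} {R i j : ℤ}
    (hr : Row H X Y N gx gy L R i j) (hL : ∃ a, i - R ≤ a ∧ a < i ∧ L a j) (hp : H.Adj p p')
    (n : p ∉ N) (n' : p' ∉ N) (hc : InC X Y gx gy i j p) (hh : Y p' = Y p)
    (hx : X p' < gx i) :
    ∃ i', i - R ≤ i' ∧ i' < i ∧ InC X Y gx gy i' j p' ∧ (∀ a, i' < a → a < i → ¬ L a j) ∧
      (L i j → Up X Y gx gy i j p) ∧ (L i' j → ¬ Up X Y gx gy i' j p') := by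
  obtain ⟨c1, c2, c3, c4⟩ := hc
  have mono : ∀ {k l : ℤ}, i - R ≤ k → k ≤ l → l ≤ i + R + 1 → gx k ≤ gx l := fun h1 h2 h3 =>
    mono_of (g := gx) (a := i - R) (b := i + R + 1) (fun k h4 h5 => hr.gxm k h4 (by omega)) h1 h2 h3
  have hdy : 0 < gy (j + 1) - gy j := by linarith [hr.gym]
  -- the same edge in the other direction
  have sd : ∀ a, i - R ≤ a → a ≤ i + R → L a j → ¬ ((X p' - gx a) * (gy (j + 1) - gy j) ≤
      (Y p' - gy j) * (gx (a + 1) - gx a) ∧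
      (Y p' - gy j) * (gx (a + 1) - gx a) ≤ (X p - gx a) * (gy (j + 1) - gy j)) :=
    fun a h1 h2 h3 => side_h hd (hr.dp a h1 h2 h3) (hr.gxm a h1 h2) hp.symm n' n hh.symm
      (by rw [hh]; exact c3) (by rw [hh]; exact c4)
  -- no obstacle between
  have nd : ∀ a, i - R ≤ a → a < i → L a j → X p' ≤ gx a → False := by
    intro a h1 h2 h3 h4
    have h5 := hr.gxm a h1 (by omega)
    have h6 := mono (k := a + 1) (l := i) (by omega) (by omega) (by omega)
    refine sd a h1 (by omega) h3 ⟨?_, ?_⟩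
    · have h7 : (X p' - gx a) * (gy (j + 1) - gy j) ≤ 0 :=
        mul_nonpos_of_nonpos_of_nonneg (by linarith) hdy.le
      have h8 : 0 ≤ (Y p' - gy j) * (gx (a + 1) - gx a) :=
        mul_nonneg (by linarith) (by linarith)
      linarith
    · exact mul_le_aux (by linarith) (by linarith) (by linarith) (by linarith)
  obtain ⟨a, ha1, ha2, ha3⟩ := hL
  have hlt : gx a < X p' := by
    by_contra hcon
    exact nd a ha1 ha2 ha3 (not_lt.1 hcon)
  obtain ⟨i', b1, b2, b3, b4⟩ := exists_cell (g := gx) (x := X p') (i - a).toNat a hlt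
    (by rw [show a + ((i - a).toNat : ℤ) = i by omega]; exact hx)
    (fun b d1 d2 e => not_on hd (hr.vp b (by omega) (by omega)) hr.gym n' e.symm
      (by rw [hh]; exact c3.le) (by rw [hh]; exact c4.le))
  have hR : i - R ≤ i' := by omega
  have hi' := hr.gxm i' hR (by omega)
  have hii := mono (k := i' + 1) (l := i) (by omega) (by omega) (by omega)
  have hi := hr.gxm i (by omega) (by omega)
  refine ⟨i', hR, by omega, ⟨b3, b4, by rw [hh]; exact c3, by rw [hh]; exact c4⟩, ?_, ?_, ?_⟩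
  · intro b d1 d2 d3
    have := mono (k := i' + 1) (l := b) (by omega) (by omega) (by omega)
    exact nd b (by omega) d2 d3 (by linarith)
  · intro h3
    by_contra h4
    unfold Up at h4
    refine sd i (by omega) (by omega) h3 ⟨?_, by rw [hh]; exact not_lt.1 h4⟩
    have h7 : (X p' - gx i) * (gy (j + 1) - gy j) ≤ 0 :=
      mul_nonpos_of_nonpos_of_nonneg (by linarith) hdy.le
    have h8 : 0 ≤ (Y p' - gy j) * (gx (i + 1) - gx i) :=
      mul_nonneg (by linarith) (by linarith)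
    linarith
  · intro h3 h4
    refine sd i' hR (by omega) h3
      ⟨h4.le, mul_le_aux (by linarith) (by linarith) (by linarith) (by linarith)⟩

/-- a vertex outside `N` is not on the diagonal edge -/
theorem not_diag (hd : ADraw H X Y E F) {x₀ x₁ y₀ y₁ : ℝ} (hdp : DP H X Y N x₀ y₀ x₁ y₁)
    (hy : y₀ < y₁) (n : p ∉ N) (c3 : y₀ ≤ Y p) (c4 : Y p ≤ y₁) :
    (X p - x₀) * (y₁ - y₀) ≠ (Y p - y₀) * (x₁ - x₀) := by
  intro e
  obtain ⟨u, v, h1, h2, h3, h4, h5, h6, h7⟩ := hdp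
  have hy' : 0 < y₁ - y₀ := by linarith
  refine hd.vtx u v p h1 (fun e => n (e ▸ h2)) (fun e => n (e ▸ h3))
    ((Y p - y₀) / (y₁ - y₀)) (div_nonneg (by linarith) hy'.le)
    ((div_le_one hy').2 (by linarith)) ?_ ?_
  · rw [h4, h6]
    field_simp
    linarith
  · rw [h5, h7]
    field_simp
    ring

/-- the cross of cells around `(i, j)` -/
structure Crs (H : SimpleGraph V) (X Y : V → ℝ) (N : Set V) (gx gy : ℤ → ℝ)
    (L : ℤ → ℤ → Prop) (R i j : ℤ) : Prop where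
  row : Row H X Y N gx gy L R i j
  col : Row H Y X N gy gx (fun b a => L a b) R j i

/-- `p` is in the cell `(i, j)`, on the side `u` of the diagonal if this is an obstacle -/
def At (X Y : V → ℝ) (gx gy : ℤ → ℝ) (L : ℤ → ℤ → Prop) (i j : ℤ) (u : Bool) (p : V) : Prop :=
  InC X Y gx gy i j p ∧ (L i j → (u = true ↔ Up X Y gx gy i j p))

theorem exists_At {gx gy : ℤ → ℝ} {L : ℤ → ℤ → Prop} {i j : ℤ} (h : InC X Y gx gy i j p) :
    ∃ u, At X Y gx gy L i j u p := by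
  classical
  exact ⟨decide (Up X Y gx gy i j p), h, fun _ => decide_eq_true_iff⟩

/-- the link lemma, with the alignment -/
theorem Crs.link' (hd : ADraw H X Y E F) {gx gy : ℤ → ℝ} {L : ℤ → ℤ → Prop} {R i j : ℤ}
    (h : Crs H X Y N gx gy L R i j)
    (hLr : ∃ a, i < a ∧ a ≤ i + R ∧ L a j) (hLl : ∃ a, i - R ≤ a ∧ a < i ∧ L a j)
    (hLu : ∃ b, j < b ∧ b ≤ j + R ∧ L i b) (hLd : ∃ b, j - R ≤ b ∧ b < j ∧ L i b)
    (hp : H.Adj p p') (n : p ∉ N) (n' : p' ∉ N) {u : Bool} (hc : At X Y gx gy L i j u p) :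
    ∃ i' j' u', At X Y gx gy L i' j' u' p' ∧ i - R ≤ i' ∧ i' ≤ i + R ∧ j - R ≤ j' ∧ j' ≤ j + R ∧
      ((i' = i ∧ j' = j) ∨ (j' = j ∧ Y p' = Y p) ∨ (i' = i ∧ X p' = X p)) ∧
      ((i' = i ∧ j' = j) ∨
        (j' = j ∧ i < i' ∧ (∀ x, i < x → x < i' → ¬ L x j) ∧ (L i j → u = false) ∧
          (L i' j → u' = true)) ∨
        (j' = j ∧ i' < i ∧ (∀ x, i' < x → x < i → ¬ L x j) ∧ (L i' j → u' = false) ∧
          (L i j → u = true)) ∨
        (i' = i ∧ j < j' ∧ (∀ y, j < y → y < j' → ¬ L i y) ∧ (L i j → u = true) ∧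
          (L i j' → u' = false)) ∨
        (i' = i ∧ j' < j ∧ (∀ y, j' < y → y < j → ¬ L i y) ∧ (L i j' → u' = true) ∧
          (L i j → u = false))) := by
  classical
  obtain ⟨hc1, hc2⟩ := hc
  have hgx : gx i < gx (i + 1) := h.row.gxm i (by omega) (by omega)
  have hgy : gy j < gy (j + 1) := h.row.gym
  obtain ⟨k1, k2, k3, k4⟩ := hc1
  -- the two sides of the diagonal in the column
  have sw : ∀ b, j - R ≤ b → b ≤ j + R → L i b → ∀ q : V, q ∉ N → gy b ≤ Y q →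
      Y q ≤ gy (b + 1) → (Up Y X gy gx b i q ↔ ¬ Up X Y gx gy i b q) := by
    intro b h1 h2 h3 q h4 h5 h6
    have h7 := h.col.dp b h1 h2 h3
    have h8 := not_diag hd h7.swap (h.col.gxm b h1 h2) h4 h5 h6
    unfold Up
    constructor
    · intro h9 h10
      exact lt_irrefl _ (h9.trans h10)
    · intro h9
      exact lt_of_le_of_ne (not_lt.1 h9) h8.symm
  have tb : ∀ {u : Bool} {P : Prop}, (u = true ↔ P) → ¬ P → u = false := by
    intro u P h1 h2
    cases u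
    · rfl
    · exact absurd (h1.1 rfl) h2
  rcases exit_rect hd (h.row.vp i (by omega) (by omega)) (h.row.vp (i + 1) (by omega) (by omega))
    (h.col.vp j (by omega) (by omega)) (h.col.vp (j + 1) (by omega) (by omega)) hp n n' k1 k2 k3
    k4 with e | ⟨e, e'⟩ | ⟨e, e'⟩
  · exact ⟨i, j, decide (Up X Y gx gy i j p'), ⟨e, fun _ => decide_eq_true_iff⟩, by omega,
      by omega, by omega, by omega, Or.inl ⟨rfl, rfl⟩, Or.inl ⟨rfl, rfl⟩⟩
  · rcases e' with e' | e'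
    · obtain ⟨i', b1, b2, b3, b4, b5, b6⟩ := h.row.left hd hLl hp n n' ⟨k1, k2, k3, k4⟩ e e'
      refine ⟨i', j, decide (Up X Y gx gy i' j p'), ⟨b3, fun _ => decide_eq_true_iff⟩, by omega,
        by omega, by omega, by omega, Or.inr (Or.inl ⟨rfl, e⟩),
        Or.inr (Or.inr (Or.inl ⟨rfl, b2, b4, ?_, ?_⟩))⟩
      · intro h1
        exact decide_eq_false (b6 h1)
      · intro h1
        exact (hc2 h1).2 (b5 h1)
    · obtain ⟨i', b1, b2, b3, b4, b5, b6⟩ := h.row.right hd hLr hp n n' ⟨k1, k2, k3, k4⟩ e e'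
      refine ⟨i', j, decide (Up X Y gx gy i' j p'), ⟨b3, fun _ => decide_eq_true_iff⟩, by omega,
        by omega, by omega, by omega, Or.inr (Or.inl ⟨rfl, e⟩),
        Or.inr (Or.inl ⟨rfl, b1, b4, ?_, ?_⟩)⟩
      · intro h1
        exact tb (hc2 h1) (b5 h1)
      · intro h1
        exact decide_eq_true (b6 h1)
  · rcases e' with e' | e'
    · obtain ⟨j', b1, b2, b3, b4, b5, b6⟩ := h.col.left hd.swap hLd hp n n' ⟨k3, k4, k1, k2⟩ e e'
      refine ⟨i, j', decide (Up X Y gx gy i j' p'), ⟨b3.swap, fun _ => decide_eq_true_iff⟩,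
        by omega, by omega, by omega, by omega, Or.inr (Or.inr ⟨rfl, e⟩),
        Or.inr (Or.inr (Or.inr (Or.inr ⟨rfl, b2, b4, ?_, ?_⟩)))⟩
      · intro h1
        have h2 := (sw j' (by omega) (by omega) h1 p' n' b3.1.le b3.2.1.le).not.1 (b6 h1)
        exact decide_eq_true (not_not.1 h2)
      · intro h1
        exact tb (hc2 h1) ((sw j (by omega) (by omega) h1 p n k3.le k4.le).1 (b5 h1))
    · obtain ⟨j', b1, b2, b3, b4, b5, b6⟩ := h.col.right hd.swap hLu hp n n' ⟨k3, k4, k1, k2⟩ e e'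
      refine ⟨i, j', decide (Up X Y gx gy i j' p'), ⟨b3.swap, fun _ => decide_eq_true_iff⟩,
        by omega, by omega, by omega, by omega, Or.inr (Or.inr ⟨rfl, e⟩),
        Or.inr (Or.inr (Or.inr (Or.inl ⟨rfl, b1, b4, ?_, ?_⟩)))⟩
      · intro h1
        have h2 := (sw j (by omega) (by omega) h1 p n k3.le k4.le).not.1 (b5 h1)
        exact (hc2 h1).2 (not_not.1 h2)
      · intro h1
        exact decide_eq_false
          ((sw j' (by omega) (by omega) h1 p' n' b3.1.le b3.2.1.le).1 (b6 h1))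

/-- the link lemma -/
theorem Crs.link (hd : ADraw H X Y E F) {gx gy : ℤ → ℝ} {L : ℤ → ℤ → Prop} {R i j : ℤ}
    (h : Crs H X Y N gx gy L R i j)
    (hLr : ∃ a, i < a ∧ a ≤ i + R ∧ L a j) (hLl : ∃ a, i - R ≤ a ∧ a < i ∧ L a j)
    (hLu : ∃ b, j < b ∧ b ≤ j + R ∧ L i b) (hLd : ∃ b, j - R ≤ b ∧ b < j ∧ L i b)
    (hp : H.Adj p p') (n : p ∉ N) (n' : p' ∉ N) {u : Bool} (hc : At X Y gx gy L i j u p) :
    ∃ i' j' u', At X Y gx gy L i' j' u' p' ∧ i - R ≤ i' ∧ i' ≤ i + R ∧ j - R ≤ j' ∧ j' ≤ j + R ∧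
      ((i' = i ∧ j' = j) ∨
        (j' = j ∧ i < i' ∧ (∀ x, i < x → x < i' → ¬ L x j) ∧ (L i j → u = false) ∧
          (L i' j → u' = true)) ∨
        (j' = j ∧ i' < i ∧ (∀ x, i' < x → x < i → ¬ L x j) ∧ (L i' j → u' = false) ∧
          (L i j → u = true)) ∨
        (i' = i ∧ j < j' ∧ (∀ y, j < y → y < j' → ¬ L i y) ∧ (L i j → u = true) ∧
          (L i j' → u' = false)) ∨
        (i' = i ∧ j' < j ∧ (∀ y, j' < y → y < j → ¬ L i y) ∧ (L i j' → u' = true) ∧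
          (L i j → u = false))) := by
  obtain ⟨i', j', u', h1, h2, h3, h4, h5, -, h6⟩ := h.link' hd hLr hLl hLu hLd hp n n' hc
  exact ⟨i', j', u', h1, h2, h3, h4, h5, h6⟩

end Pool.Agent.Helper72.DG3
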