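import Pool.Agent.Helper58.DG3.Net
import Pool.Agent.Helper72.DG3.Link
import Pool.Agent.Helper96.DG3.Walk
import Pool.Agent.Helper68.RAC1.Par

/-!
# RAC1, C1: the link lemma for the net
-/

set_option autoImplicit false

namespace Pool.Agent.Helper58.DG3

open Pool.Agent.Helper18.RAC
open Pool.Agent.Helper72.DG3 (HP DP Crs Row)

variable {V : Type*} {H : SimpleGraph V} {X Y : V → ℝ} {E F : ℝ} {κ : GX → V} {π : Par}

/-- `v` is in the open cell `(i, j)`, above the diagonal if and only if `u = true` in case the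
cell is an obstacle -/
def AtC (X Y : V → ℝ) (κ : GX → V) (π : Par) (i j : ℤ) (u : Bool) (v : V) : Prop :=
  InC X Y κ i j v ∧ (InL π.D (i, j) → (u = true ↔ UL X Y κ i j v))

theorem Par.R_pos (π : Par) : 0 < π.R := Nat.fib_pos.2 (by omega)

/-- an obstacle in a row, to the left -/
theorem exists_left (π : Par) (i j : ℤ) : ∃ a, i - π.R ≤ a ∧ a < i ∧ InL π.D (a, j) := by
  have hR : (0 : ℤ) < π.R := by exact_mod_cast π.R_pos
  have h1 := Int.emod_nonneg (i - 1 - (Nat.fib (2 * π.D) : ℤ) * j) hR.ne'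
  have h2 := Int.emod_lt_of_pos (i - 1 - (Nat.fib (2 * π.D) : ℤ) * j) hR
  refine ⟨i - 1 - (i - 1 - (Nat.fib (2 * π.D) : ℤ) * j) % π.R, by omega, by omega, ?_⟩
  have h3 := Int.dvd_sub_self_of_emod_eq (a := i - 1 - (Nat.fib (2 * π.D) : ℤ) * j) (b := π.R)
    (c := (i - 1 - (Nat.fib (2 * π.D) : ℤ) * j) % π.R) rfl
  have h4 := (dvd_neg.2 h3)
  rw [neg_sub] at h4
  have h5 : i - 1 - (i - 1 - (Nat.fib (2 * π.D) : ℤ) * j) % π.R - (Nat.fib (2 * π.D) : ℤ) * j =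
      i - 1 - (Nat.fib (2 * π.D) : ℤ) * j - (i - 1 - (Nat.fib (2 * π.D) : ℤ) * j) % π.R := by ring
  change (π.R : ℤ) ∣ i - 1 - (i - 1 - (Nat.fib (2 * π.D) : ℤ) * j) % π.R -
    (Nat.fib (2 * π.D) : ℤ) * j
  rw [h5]
  exact h4

theorem exists_right (π : Par) (i j : ℤ) : ∃ a, i < a ∧ a ≤ i + π.R ∧ InL π.D (a, j) := by
  obtain ⟨a, h1, h2, h3⟩ := exists_left π (i + π.R + 1) j
  exact ⟨a, by omega, by omega, h3⟩

theorem InL_swap {D : ℕ} {x y : ℤ} (h : InL D (x, y)) : InL D (y, x) :=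
  Pool.Agent.Helper96.DG3.InL.swap (Pool.Agent.Helper68.RAC1.par_dvd_sq D) h

theorem exists_down (π : Par) (i j : ℤ) : ∃ b, j - π.R ≤ b ∧ b < j ∧ InL π.D (i, b) := by
  obtain ⟨a, h1, h2, h3⟩ := exists_left π j i
  exact ⟨a, h1, h2, InL_swap h3⟩

theorem exists_up (π : Par) (i j : ℤ) : ∃ b, j < b ∧ b ≤ j + π.R ∧ InL π.D (i, b) := by
  obtain ⟨a, h1, h2, h3⟩ := exists_right π j i
  exact ⟨a, h1, h2, InL_swap h3⟩

/-- the obstacle of the cell `(x, y)` -/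
theorem Net.dp (h : Net H X Y E F κ π) {x y : ℤ} (hx : 1 ≤ x) (hy : 1 ≤ y)
    (hM : x + y + 5 ≤ π.M) (hL : InL π.D (x, y)) :
    DP H X Y (ZN κ π) (gX X κ x) (gY Y κ y) (gX X κ (x + 1)) (gY Y κ (y + 1)) := by
  obtain ⟨a, rfl⟩ := Int.eq_ofNat_of_zero_le (show 0 ≤ x by omega)
  obtain ⟨b, rfl⟩ := Int.eq_ofNat_of_zero_le (show 0 ≤ y by omega)
  have ok1 : GN.ok π (.F a b) := ⟨by omega, by omega, by omega, Or.inl hL⟩
  have ok2 : GN.ok π (.F (a + 1) (b + 1)) := by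
    refine ⟨by omega, by omega, by omega, Or.inr (Or.inl ?_)⟩
    have e1 : (((a + 1 : ℕ) : ℤ), ((b + 1 : ℕ) : ℤ)).1 - 1 = (a : ℤ) := by push_cast; ring
    have e2 : (((a + 1 : ℕ) : ℤ), ((b + 1 : ℕ) : ℤ)).2 - 1 = (b : ℤ) := by push_cast; ring
    rw [e1, e2]
    exact hL
  obtain ⟨p1, p2⟩ := h.pos a b ok1
  obtain ⟨p3, p4⟩ := h.pos (a + 1) (b + 1) ok2
  exact ⟨κ (.v (.F a b)), κ (.v (.F (a + 1) (b + 1))), h.dg a b (by omega) (by omega) (by omega) hL,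
    ⟨_, ok1, trivial, rfl⟩, ⟨_, ok2, trivial, rfl⟩, p1, p2, by rw [p3]; push_cast; rfl,
    by rw [p4]; push_cast; rfl⟩

/-- the cross around a cell -/
theorem Net.crs (h : Net H X Y E F κ π) {i j : ℤ} (hi : π.R + 1 ≤ i) (hj : π.R + 1 ≤ j)
    (hM : i + j + 2 * π.R + 6 ≤ π.M) :
    Crs H X Y (ZN κ π) (gX X κ) (gY Y κ) (fun x y => InL π.D (x, y)) π.R i j where
  row :=
    { gxm := fun a h1 h2 => h.gx_lt a (a + 1) (by omega) (by omega) (by omega)
      gym := h.gy_lt j (j + 1) (by omega) (by omega) (by omega)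
      vp := fun a h1 h2 => by
        obtain ⟨p, p', q1, q2, q3, q4, q5, q6, q7⟩ := h.col a j (by omega) (by omega) (by omega)
        exact ⟨p, p', q3, q1, q2, q4, q5, q6, q7⟩
      dp := fun a h1 h2 h3 => h.dp (by omega) (by omega) (by omega) h3 }
  col :=
    { gxm := fun a h1 h2 => h.gy_lt a (a + 1) (by omega) (by omega) (by omega)
      gym := h.gx_lt i (i + 1) (by omega) (by omega) (by omega)
      vp := fun a h1 h2 => by
        obtain ⟨p, p', q1, q2, q3, q4, q5, q6, q7⟩ := h.row i a (by omega) (by omega) (by omega)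
        exact ⟨p, p', q3, q1, q2, q4, q5, q6, q7⟩
      dp := fun a h1 h2 h3 => (h.dp (by omega) (by omega) (by omega) h3).swap }

/-- the link lemma: an edge which starts in the cell `(i, j)` and whose ends are not vertices of the
frame or of the net -/
theorem Net.link (h : Net H X Y E F κ π) {i j : ℤ} (hi : π.R + 1 ≤ i) (hj : π.R + 1 ≤ j)
    (hM : i + j + 2 * π.R + 6 ≤ π.M) {p p' : V} (hp : H.Adj p p') (n : p ∉ ZN κ π)
    (n' : p' ∉ ZN κ π) {u : Bool} (hc : AtC X Y κ π i j u p) :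
    ∃ i' j' u', AtC X Y κ π i' j' u' p' ∧ i - π.R ≤ i' ∧ i' ≤ i + π.R ∧ j - π.R ≤ j' ∧
      j' ≤ j + π.R ∧
      Pool.Agent.Helper96.DG3.Link (Nat.fib (2 * π.D + 2)) (Nat.fib (2 * π.D)) i j u i' j' u' :=
  (h.crs hi hj hM).link h.hd (exists_right π i j) (exists_left π i j) (exists_up π i j)
    (exists_down π i j) hp n n' hc

/-- the same with the alignment -/
theorem Net.link' (h : Net H X Y E F κ π) {i j : ℤ} (hi : π.R + 1 ≤ i) (hj : π.R + 1 ≤ j)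
    (hM : i + j + 2 * π.R + 6 ≤ π.M) {p p' : V} (hp : H.Adj p p') (n : p ∉ ZN κ π)
    (n' : p' ∉ ZN κ π) {u : Bool} (hc : AtC X Y κ π i j u p) :
    ∃ i' j' u', AtC X Y κ π i' j' u' p' ∧ i - π.R ≤ i' ∧ i' ≤ i + π.R ∧ j - π.R ≤ j' ∧
      j' ≤ j + π.R ∧
      ((i' = i ∧ j' = j) ∨ (j' = j ∧ Y p' = Y p) ∨ (i' = i ∧ X p' = X p)) ∧
      Pool.Agent.Helper96.DG3.Link (Nat.fib (2 * π.D + 2)) (Nat.fib (2 * π.D)) i j u i' j' u' :=
  (h.crs hi hj hM).link' h.hd (exists_right π i j) (exists_left π i j) (exists_up π i j)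
    (exists_down π i j) hp n n' hc

end Pool.Agent.Helper58.DG3
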